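import Mathlib

section

/- The number of edges of an initial segment of the binary order, and its inequalities. -/

set_option autoImplicit false

namespace Pool.Agent.MP_163ab5_co

/-- The sum of the binary digit sums of the numbers below `k`. -/
def ff : ℕ → ℕ
  | 0 => 0
  | 1 => 0
  | k + 2 => ff (k / 2 + 1) + ff ((k + 1) / 2 + 1) + (k / 2 + 1)
decreasing_by all_goals omega

theorem ff_zero : ff 0 = 0 := by rw [ff]

theorem ff_one : ff 1 = 0 := by rw [ff]

theorem ff_even (a : ℕ) : ff (2 * a) = 2 * ff a + a := by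
  cases a with
  | zero => simp [ff_zero]
  | succ a =>
    rw [show 2 * (a + 1) = 2 * a + 2 by ring, ff, show 2 * a / 2 = a by omega,
      show (2 * a + 1) / 2 = a by omega]
    ring

theorem ff_odd (a : ℕ) : ff (2 * a + 1) = ff a + ff (a + 1) + a := by
  cases a with
  | zero => simp [ff_zero, ff_one]
  | succ a =>
    rw [show 2 * (a + 1) + 1 = (2 * a + 1) + 2 by ring, ff, show (2 * a + 1) / 2 = a by omega,
      show (2 * a + 1 + 1) / 2 = a + 1 by omega]

theorem hart (s : ℕ) : ∀ x y, x + y = s → ff x + ff y + min x y ≤ ff (x + y) := by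
  induction s using Nat.strong_induction_on with
  | _ s ih =>
    intro x y hs
    rcases Nat.eq_zero_or_pos x with rfl | hx
    · simp [ff_zero]
    rcases Nat.eq_zero_or_pos y with rfl | hy
    · simp [ff_zero]
    obtain ⟨a, rfl | rfl⟩ := Nat.even_or_odd' x <;> obtain ⟨b, rfl | rfl⟩ := Nat.even_or_odd' y
    · have h1 := ih _ (by omega) a b rfl
      rw [← mul_add, ff_even, ff_even, ff_even]
      omega
    · have h1 := ih _ (by omega) a b rfl
      have h2 := ih _ (by omega) a (b + 1) rfl
      rw [← add_assoc, ← mul_add, ff_even, ff_odd, ff_odd]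
      rw [← add_assoc] at h2
      omega
    · have h1 := ih _ (by omega) a b rfl
      have h2 := ih _ (by omega) (a + 1) b rfl
      rw [add_right_comm (2 * a), ← mul_add, ff_even, ff_odd, ff_odd]
      rw [add_right_comm a 1 b] at h2
      omega
    · have h1 := ih _ (by omega) a (b + 1) rfl
      have h2 := ih _ (by omega) (a + 1) b rfl
      rw [show 2 * a + 1 + (2 * b + 1) = 2 * (a + b + 1) by ring, ff_even, ff_odd, ff_odd]
      rw [← add_assoc] at h1
      rw [add_right_comm a 1 b] at h2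
      omega

theorem ff_shift (n : ℕ) : ∀ r, r ≤ 2 ^ n → ff (2 ^ n + r) = ff (2 ^ n) + r + ff r := by
  induction n with
  | zero =>
    intro r hr
    have h2 := ff_even 1
    interval_cases r <;> simp_all [ff_zero, ff_one]
  | succ n ih =>
    intro r hr
    rw [pow_succ'] at hr ⊢
    obtain ⟨a, rfl | rfl⟩ := Nat.even_or_odd' r
    · rw [← mul_add, ff_even, ff_even, ff_even, ih a (by omega)]
      ring
    · rw [← add_assoc, ← mul_add, ff_odd, ff_even, ff_odd, ih a (by omega), add_assoc (2 ^ n),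
        ih (a + 1) (by omega)]
      ring

theorem ff_symm (n : ℕ) : ∀ a b, a + b = 2 ^ n → 2 * ff a + n * b = 2 * ff b + n * a := by
  induction n with
  | zero =>
    intro a b h
    have : a = 0 ∧ b = 1 ∨ a = 1 ∧ b = 0 := by omega
    rcases this with ⟨rfl, rfl⟩ | ⟨rfl, rfl⟩ <;> simp [ff_zero, ff_one]
  | succ n ih =>
    intro a b h
    rw [pow_succ'] at h
    obtain ⟨a, rfl | rfl⟩ := Nat.even_or_odd' a <;> obtain ⟨b, rfl | rfl⟩ := Nat.even_or_odd' b
    · have h1 := ih a b (by omega)
      rw [ff_even, ff_even]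
      linarith
    · omega
    · omega
    · have h1 := ih a (b + 1) (by omega)
      have h2 := ih (a + 1) b (by omega)
      rw [ff_odd, ff_odd]
      linarith

theorem ff_chord (n : ℕ) : ∀ r, r ≤ 2 ^ n → 2 * ff r ≤ n * r := by
  induction n with
  | zero =>
    intro r hr
    interval_cases r <;> simp [ff_zero, ff_one]
  | succ n ih =>
    intro r hr
    rw [pow_succ'] at hr
    obtain ⟨a, rfl | rfl⟩ := Nat.even_or_odd' r
    · have h1 := ih a (by omega)
      rw [ff_even]
      linarith
    · have h1 := ih a (by omega)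
      have h2 := ih (a + 1) (by omega)
      rw [ff_odd]
      linarith

theorem ff_pow (n : ℕ) : 2 * ff (2 ^ n) = n * 2 ^ n := by
  simpa [ff_zero] using ff_symm n (2 ^ n) 0 rfl

/-- The bound for the number of ordered adjacent pairs in the folded cube. -/
def gg (n k : ℕ) : ℤ := 2 * ff k + max 0 (2 * k - 2 ^ n : ℤ)

theorem gg_symm {n a b : ℕ} (h : a + b = 2 ^ n) : gg n a = gg n b + (n + 1) * (a - b : ℤ) := by
  have h1 : (2 * ff a + n * b : ℤ) = 2 * ff b + n * a := by exact_mod_cast ff_symm n a b h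
  have h2 : (a + b : ℤ) = 2 ^ n := by exact_mod_cast h
  unfold gg
  rw [← h2]
  rcases le_total (a : ℤ) b with h3 | h3
  · rw [max_eq_left (by linarith), max_eq_right (by linarith)]
    linarith
  · rw [max_eq_right (by linarith), max_eq_left (by linarith)]
    linarith

theorem gg_low {n x y : ℕ} (hxy : y ≤ x) (h : x + y ≤ 2 ^ n) :
    gg n x + gg n y + min (2 * y : ℤ) (2 ^ n - 2 * x + 4 * y) ≤ gg (n + 1) (x + y) := by
  have h0 : ((2 ^ n : ℕ) : ℤ) = 2 ^ n := by push_cast; rfl
  unfold gg
  rw [pow_succ', ← h0]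
  by_cases hx : 2 * x ≤ 2 ^ n
  · have h1 := hart _ x y rfl
    omega
  cases n with
  | zero =>
    have : x = 1 ∧ y = 0 := by omega
    obtain ⟨rfl, rfl⟩ := this
    simp [ff_zero, ff_one]
  | succ n =>
    rw [pow_succ'] at hx h ⊢
    obtain ⟨z, rfl⟩ := Nat.exists_eq_add_of_le (show 2 ^ n ≤ x by omega)
    have h1 := hart _ z y rfl
    have h2 := ff_shift n z (by omega)
    have h3 := ff_shift n (z + y) (by omega)
    rw [add_assoc (2 ^ n)]
    omega

theorem gg_step {n x y : ℕ} (hxy : y ≤ x) (h : x ≤ 2 ^ n) :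
    gg n x + gg n y + min (2 * y : ℤ) (2 ^ n - 2 * x + 4 * y) ≤ gg (n + 1) (x + y) := by
  rcases le_total (x + y) (2 ^ n) with h1 | h1
  · exact gg_low hxy h1
  obtain ⟨a, ha⟩ := Nat.exists_eq_add_of_le h
  obtain ⟨b, hb⟩ := Nat.exists_eq_add_of_le (hxy.trans h)
  have h2 := gg_low (n := n) (x := b) (y := a) (by omega) (by omega)
  have h3 : (2 ^ n : ℤ) = x + a := by exact_mod_cast ha
  have h4 : (2 ^ n : ℤ) = y + b := by exact_mod_cast hb
  rw [gg_symm ha.symm, gg_symm hb.symm,
    gg_symm (n := n + 1) (a := x + y) (b := b + a) (by rw [pow_succ']; omega)]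
  push_cast
  rcases le_total (2 * y : ℤ) (2 ^ n - 2 * x + 4 * y) with h5 | h5
  · rw [min_eq_left h5]
    rw [min_eq_left (by linarith)] at h2
    linarith
  · rw [min_eq_right h5]
    rw [min_eq_right (by linarith)] at h2
    linarith

/-- The chord bound between `5 / 16` and `1 / 2` of the cube. -/
theorem ff_mid (m j : ℕ) (h1 : 5 * 2 ^ m ≤ j) (h2 : j ≤ 8 * 2 ^ m) :
    2 * ff j + min (24 * 2 ^ m - j) (10 * 2 ^ m + j) ≤ (m + 5) * j := by
  obtain ⟨a, rfl⟩ := Nat.exists_eq_add_of_le (show 2 ^ (m + 2) ≤ j by rw [pow_add]; omega)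
  have e2 : 2 ^ (m + 2) = 4 * 2 ^ m := by ring
  have e1 : 2 ^ (m + 1) = 2 * 2 ^ m := by ring
  have s2 := ff_shift (m + 2) a (by omega)
  have p2 := ff_pow (m + 2)
  have p1 := ff_pow (m + 1)
  have p0 := ff_pow m
  have low : ∀ b, 2 ^ m ≤ b → b ≤ 2 * 2 ^ m → 2 * ff b + 2 * 2 ^ m ≤ (m + 2) * b := by
    intro b hb hb'
    obtain ⟨c, rfl⟩ := Nat.exists_eq_add_of_le hb
    have s0 := ff_shift m c (by omega)
    have c0 := ff_chord m c (by omega)
    linarith
  rw [s2]
  rw [e2] at h1 h2 p2 ⊢
  rcases le_total a (2 * 2 ^ m) with h3 | h3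
  · have h4 := low a (by omega) h3
    have h5 := min_le_right (24 * 2 ^ m - (4 * 2 ^ m + a)) (10 * 2 ^ m + (4 * 2 ^ m + a))
    linarith
  obtain ⟨b, rfl⟩ := Nat.exists_eq_add_of_le h3
  have s1 := ff_shift (m + 1) b (by omega)
  rw [e1] at s1 p1
  rw [s1]
  rcases le_total b (2 ^ m) with h4 | h4
  · have h6 := ff_chord m b h4
    have h5 := min_le_right (24 * 2 ^ m - (4 * 2 ^ m + (2 * 2 ^ m + b)))
      (10 * 2 ^ m + (4 * 2 ^ m + (2 * 2 ^ m + b)))
    linarith
  · have h6 := low b h4 (by omega)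
    have h5 := min_le_left (24 * 2 ^ m - (4 * 2 ^ m + (2 * 2 ^ m + b)))
      (10 * 2 ^ m + (4 * 2 ^ m + (2 * 2 ^ m + b)))
    have h7 : 24 * 2 ^ m - (4 * 2 ^ m + (2 * 2 ^ m + b)) + b = 18 * 2 ^ m := by omega
    linarith

end Pool.Agent.MP_163ab5_co

end

section

/- The discrete cube and the antipodal edge isoperimetric inequality. -/

set_option autoImplicit false

namespace Pool.Agent.MP_163ab5_co

open Finset

/-- The discrete cube. -/
abbrev Cube (n : ℕ) := Fin n → Bool

variable {n : ℕ}

/-- Change the coordinate `i`. -/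
def fl (i : Fin n) (x : Cube n) : Cube n := Function.update x i (!x i)

/-- The antipode. -/
def an (x : Cube n) : Cube n := fun i => !x i

/-- Takes only the values zero and one. -/
def Zo (f : Cube n → ℤ) : Prop := ∀ x, f x = 0 ∨ f x = 1

/-- Ordered pairs from the support to its complement along edges of the cube. -/
def Bd (f : Cube n → ℤ) : ℤ := ∑ i, ∑ x, f x * (1 - f (fl i x))

/-- Points of the support whose antipode is not in the support. -/
def Od (f : Cube n → ℤ) : ℤ := ∑ x, f x * (1 - f (an x))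

/-- Ordered adjacent pairs of the support in the folded cube. -/
def EE (f : Cube n → ℤ) : ℤ := ∑ x, f x * (∑ i, f (fl i x) + f (an x))

theorem fl_self (i : Fin n) (x : Cube n) : fl i x i = !x i := by simp [fl]

theorem fl_ne {i j : Fin n} (h : j ≠ i) (x : Cube n) : fl i x j = x j := by simp [fl, h]

theorem fl_fl (i : Fin n) (x : Cube n) : fl i (fl i x) = x := by
  ext j
  by_cases h : j = i
  · subst h
    simp [fl_self]
  · simp [fl_ne h]

theorem fl_comm (i j : Fin n) (x : Cube n) : fl i (fl j x) = fl j (fl i x) := by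
  ext l
  by_cases h : l = i <;> by_cases h' : l = j
  · rw [← h, ← h']
  · subst h
    simp [fl_self, fl_ne h']
  · subst h'
    simp [fl_self, fl_ne h]
  · simp [fl_ne h, fl_ne h']

theorem an_an (x : Cube n) : an (an x) = x := by
  ext j
  simp [an]

theorem an_fl (i : Fin n) (x : Cube n) : an (fl i x) = fl i (an x) := by
  ext j
  by_cases h : j = i
  · subst h
    simp [fl_self, an]
  · simp [fl_ne h, an]

theorem sum_fl {M : Type*} [AddCommMonoid M] (i : Fin n) (g : Cube n → M) :
    ∑ x, g (fl i x) = ∑ x, g x := Equiv.sum_comp (Function.Involutive.toPerm _ (fl_fl i)) g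

theorem sum_an {M : Type*} [AddCommMonoid M] (g : Cube n → M) :
    ∑ x, g (an x) = ∑ x, g x := Equiv.sum_comp (Function.Involutive.toPerm _ an_an) g

theorem card_cube : Fintype.card (Cube n) = 2 ^ n := by simp

theorem sum_const_cube (c : ℤ) : ∑ _x : Cube n, c = 2 ^ n * c := by simp

theorem sum_cons (g : Cube (n + 1) → ℤ) :
    ∑ x, g x = ∑ w, g (Fin.cons true w) + ∑ w, g (Fin.cons false w) := by
  rw [← (Fin.consEquiv fun _ => Bool).sum_comp, Fintype.sum_prod_type, Fintype.sum_bool]
  rfl

theorem fl_zero (b : Bool) (w : Cube n) : fl 0 (Fin.cons b w : Cube (n + 1)) = Fin.cons (!b) w := by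
  simp [fl]

theorem fl_succ (i : Fin n) (b : Bool) (w : Cube n) :
    fl i.succ (Fin.cons b w : Cube (n + 1)) = Fin.cons b (fl i w) := by
  simp [fl]

theorem an_cons (b : Bool) (w : Cube n) :
    an (Fin.cons b w : Cube (n + 1)) = Fin.cons (!b) (an w) := by
  ext j
  cases j using Fin.cases <;> simp [an]

theorem Zo.nat {f : Cube n → ℤ} (h : Zo f) : ∃ k : ℕ, ∑ x, f x = k ∧ k ≤ 2 ^ n := by
  obtain ⟨k, hk⟩ := Int.eq_ofNat_of_zero_le
    (Finset.sum_nonneg fun x _ => by rcases h x with e | e <;> simp [e] : 0 ≤ ∑ x, f x)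
  refine ⟨k, hk, ?_⟩
  have : ∑ x, f x ≤ ∑ _x : Cube n, (1 : ℤ) :=
    Finset.sum_le_sum fun x _ => by rcases h x with e | e <;> simp [e]
  rw [hk, sum_const_cube, mul_one] at this
  exact_mod_cast this

/-- The pairs between the two halves, minus the antipodal pairs inside each half. -/
def cr (p q : Cube n → ℤ) : ℤ :=
  ∑ w, (2 * (p w * q w) + p w * q (an w) + q w * p (an w) - p w * p (an w) - q w * q (an w))

theorem cr_comm (p q : Cube n → ℤ) : cr p q = cr q p := Finset.sum_congr rfl fun _ _ => by ring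

theorem cr_le {p q : Cube n → ℤ} (hp : Zo p) (hq : Zo q) :
    cr p q ≤ min (2 * ∑ w, q w) (2 ^ n - 2 * ∑ w, p w + 4 * ∑ w, q w) := by
  have h1 : 2 * cr p q = ∑ w, (2 * ((p w + p (an w)) * (q w + q (an w))) -
      2 * (p w * p (an w)) - 2 * (q w * q (an w))) := by
    rw [two_mul]
    nth_rewrite 1 [cr, ← sum_an]
    rw [cr, ← Finset.sum_add_distrib]
    exact Finset.sum_congr rfl fun w _ => by rw [an_an]; ring
  have h2 : 2 * cr p q ≤ ∑ w, (2 * q w + 2 * q (an w)) := by
    rw [h1]
    refine Finset.sum_le_sum fun w _ => ?_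
    rcases hp w with a | a <;> rcases hp (an w) with b | b <;> rcases hq w with c | c <;>
      rcases hq (an w) with d | d <;> simp [a, b, c, d]
  have h3 : 2 * cr p q ≤ ∑ w, (2 - 2 * p w - 2 * p (an w) + 4 * q w + 4 * q (an w)) := by
    rw [h1]
    refine Finset.sum_le_sum fun w _ => ?_
    rcases hp w with a | a <;> rcases hp (an w) with b | b <;> rcases hq w with c | c <;>
      rcases hq (an w) with d | d <;> simp [a, b, c, d]
  simp only [Finset.sum_add_distrib, Finset.sum_sub_distrib, ← Finset.mul_sum, sum_an p, sum_an q,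
    sum_const_cube] at h2 h3
  exact le_min (by linarith) (by linarith)

theorem EE_cons (f : Cube (n + 1) → ℤ) :
    EE f = EE (fun w => f (Fin.cons true w)) + EE (fun w => f (Fin.cons false w)) +
      cr (fun w => f (Fin.cons true w)) fun w => f (Fin.cons false w) := by
  simp only [EE, cr, sum_cons, Fin.sum_univ_succ, fl_zero, fl_succ, an_cons, Bool.not_true,
    Bool.not_false, ← Finset.sum_add_distrib]
  exact Finset.sum_congr rfl fun w _ => by ring

theorem EE_le : ∀ (n : ℕ) (f : Cube n → ℤ), Zo f → ∀ k : ℕ, ∑ x, f x = k → EE f ≤ gg n k := by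
  intro n
  induction n with
  | zero =>
    intro f hf k hk
    obtain ⟨z, hz⟩ : ∃ z : Cube 0, ∀ x, x = z := ⟨default, fun x => Subsingleton.elim _ _⟩
    have hs : ∀ g : Cube 0 → ℤ, ∑ x, g x = g z := fun g =>
      Finset.sum_eq_single z (fun x _ h => (h (hz x)).elim) fun h => (h (mem_univ _)).elim
    rw [EE, hs, hz (an _), Finset.sum_of_isEmpty, zero_add]
    rw [hs] at hk
    rcases hf z with e | e <;> rw [e] at hk ⊢
    · rw [show k = 0 by omega]
      simp [gg, ff_zero]
    · rw [show k = 1 by omega]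
      simp [gg, ff_one]
  | succ n ih =>
    intro f hf k hk
    have hp : Zo fun w : Cube n => f (Fin.cons true w) := fun w => hf _
    have hq : Zo fun w : Cube n => f (Fin.cons false w) := fun w => hf _
    obtain ⟨x, hx, hx'⟩ := hp.nat
    obtain ⟨y, hy, hy'⟩ := hq.nat
    have h1 := ih _ hp x hx
    have h2 := ih _ hq y hy
    rw [sum_cons, hx, hy] at hk
    obtain rfl : k = x + y := by omega
    rw [EE_cons]
    rcases le_total y x with h | h
    · have h3 := cr_le hp hq
      rw [hx, hy] at h3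
      linarith [gg_step h hx']
    · have h3 := cr_le hq hp
      rw [hx, hy, cr_comm] at h3
      rw [add_comm x y]
      linarith [gg_step h hy']

theorem Bd_add_Od {f : Cube n → ℤ} : Bd f + Od f = (n + 1) * ∑ x, f x - EE f := by
  rw [Bd, Od, EE, Finset.sum_comm, Finset.mul_sum, ← Finset.sum_add_distrib,
    ← Finset.sum_sub_distrib]
  refine Finset.sum_congr rfl fun x _ => ?_
  rw [← Finset.mul_sum, Finset.sum_sub_distrib]
  simp only [sum_const, card_univ, Fintype.card_fin, nsmul_eq_mul, mul_one]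
  ring

/-- The boundary of an antipodal family whose density is between `5 / 16` and `1 / 2`. -/
theorem Bd_even {m : ℕ} {g : Cube (m + 4) → ℤ} (hg : Zo g) (he : ∀ x, g (an x) = g x)
    (h1 : 5 * 2 ^ m ≤ ∑ x, g x) (h2 : ∑ x, g x ≤ 8 * 2 ^ m) :
    min (24 * 2 ^ m - ∑ x, g x) (10 * 2 ^ m + ∑ x, g x) ≤ Bd g := by
  obtain ⟨j, hj, -⟩ := hg.nat
  have h3 := EE_le _ g hg j hj
  have h4 := Bd_add_Od (f := g)
  have h5 : Od g = 0 := Finset.sum_eq_zero fun x _ => by
    rw [he]
    rcases hg x with e | e <;> simp [e]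
  rw [hj] at h1 h2 h4 ⊢
  have h0 : ((2 ^ m : ℕ) : ℤ) = 2 ^ m := by push_cast; rfl
  rw [gg, max_eq_left (by rw [pow_add]; linarith)] at h3
  rw [← h0] at h1 h2 ⊢
  have h6 := ff_mid m j (by omega) (by omega)
  have h7 : ((m + 4 : ℕ) + 1 : ℤ) * j = ((m + 5) * j : ℕ) := by push_cast; ring
  omega

/-- The isoperimetric step. -/
theorem Bd_gt {m : ℕ} {f : Cube (m + 4) → ℤ} (hf : Zo f) (h1 : 6 * 2 ^ m < ∑ x, f x)
    (h2 : ∑ x, f x < 8 * 2 ^ m) (h3 : Od f < 2 ^ m) (h4 : ∑ x, f x + Od f ≤ 8 * 2 ^ m) :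
    16 * 2 ^ m < Bd f := by
  have o0 : 0 ≤ Od f := Finset.sum_nonneg fun x _ => by
    rcases hf x with a | a <;> rcases hf (an x) with b | b <;> simp [a, b]
  have s1 : ∑ x, f x * f (an x) = ∑ x, f x - Od f := by
    rw [Od, ← Finset.sum_sub_distrib]
    exact Finset.sum_congr rfl fun _ _ => by ring
  have s2 : ∑ x, (f x + f (an x) - f x * f (an x)) = ∑ x, f x + Od f := by
    rw [Finset.sum_sub_distrib, Finset.sum_add_distrib, sum_an f, s1]
    ring
  have b1 := Bd_even (g := fun x => f x * f (an x)) (fun x => by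
      rcases hf x with a | a <;> rcases hf (an x) with b | b <;> simp [a, b])
    (fun x => by rw [an_an, mul_comm]) (by rw [s1]; linarith) (by rw [s1]; linarith)
  have b2 := Bd_even (g := fun x => f x + f (an x) - f x * f (an x)) (fun x => by
      rcases hf x with a | a <;> rcases hf (an x) with b | b <;> simp [a, b])
    (fun x => by rw [an_an]; ring) (by rw [s2]; linarith) (by rw [s2]; linarith)
  have b3 : Bd (fun x => f x * f (an x)) + Bd (fun x => f x + f (an x) - f x * f (an x)) ≤
      Bd f + Bd f := by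
    simp only [Bd, ← Finset.sum_add_distrib]
    refine Finset.sum_le_sum fun i _ => ?_
    rw [Finset.sum_add_distrib (f := fun x => f x * (1 - f (fl i x)))]
    nth_rewrite 2 [← sum_an fun x => f x * (1 - f (fl i x))]
    rw [← Finset.sum_add_distrib]
    refine Finset.sum_le_sum fun x _ => ?_
    rw [← an_fl]
    rcases hf x with a | a <;> rcases hf (an x) with b | b <;> rcases hf (fl i x) with c | c <;>
      rcases hf (an (fl i x)) with d | d <;> simp [a, b, c, d]
  rw [s1] at b1
  rw [s2] at b2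
  generalize (2 : ℤ) ^ m = M at *
  omega

end Pool.Agent.MP_163ab5_co

end

section

/- Fourier expansion on the discrete cube and the level inequality. -/

set_option autoImplicit false

namespace Pool.Agent.MP_163ab5_co

open Finset

variable {n : ℕ}

/-- The sign of a bit. -/
def sg (b : Bool) : ℤ := if b then -1 else 1

/-- The character of a set of coordinates. -/
def ch (S : Finset (Fin n)) (x : Cube n) : ℤ := ∏ i ∈ S, sg (x i)

/-- The Fourier coefficient, not normalised. -/
def hat (f : Cube n → ℤ) (S : Finset (Fin n)) : ℤ := ∑ x, f x * ch S x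

/-- The excess of points without the coordinate `i` over points with it. -/
def cc (f : Cube n → ℤ) (i : Fin n) : ℤ := ∑ x, f x * sg (x i)

theorem sg_not (b : Bool) : sg (!b) = -sg b := by cases b <;> simp [sg]

theorem sg_sq (b : Bool) : sg b * sg b = 1 := by cases b <;> simp [sg]

theorem ch_sq (S : Finset (Fin n)) (x : Cube n) : ch S x * ch S x = 1 := by
  rw [ch, ← Finset.prod_mul_distrib]
  exact Finset.prod_eq_one fun _ _ => sg_sq _

theorem ch_fl (S : Finset (Fin n)) (i : Fin n) (x : Cube n) :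
    ch S (fl i x) = (if i ∈ S then -1 else 1) * ch S x := by
  unfold ch
  split_ifs with h
  · rw [← Finset.mul_prod_erase _ _ h, ← Finset.mul_prod_erase _ (fun j => sg (x j)) h, fl_self,
      sg_not, Finset.prod_congr rfl fun j hj => by rw [fl_ne (Finset.ne_of_mem_erase hj)]]
    ring
  · rw [one_mul]
    exact Finset.prod_congr rfl fun j hj => by rw [fl_ne (ne_of_mem_of_not_mem hj h)]

theorem ch_an (S : Finset (Fin n)) (x : Cube n) : ch S (an x) = (-1) ^ S.card * ch S x := by
  simp only [ch, an, sg_not]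
  exact Finset.prod_neg _

theorem ch_orth (x y : Cube n) : ∑ S, ch S x * ch S y = if x = y then 2 ^ n else 0 := by
  simp only [ch, ← Finset.prod_mul_distrib]
  rw [← Finset.powerset_univ, ← Finset.prod_one_add]
  split_ifs with h
  · subst h
    simp [sg_sq]
  · obtain ⟨i, hi⟩ := Function.ne_iff.1 h
    refine Finset.prod_eq_zero (mem_univ i) ?_
    revert hi
    cases x i <;> cases y i <;> simp [sg]

theorem planch (f g : Cube n → ℤ) : ∑ S, hat f S * hat g S = 2 ^ n * ∑ x, f x * g x := by
  simp only [hat, Finset.sum_mul_sum]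
  rw [Finset.sum_comm, Finset.mul_sum]
  refine Finset.sum_congr rfl fun x _ => ?_
  rw [Finset.sum_comm, Finset.sum_congr rfl fun y _ => show _ = f x * g y * if x = y then 2 ^ n
    else 0 by rw [← ch_orth, Finset.mul_sum]; exact Finset.sum_congr rfl fun _ _ => by ring]
  simp [mul_comm]

theorem hat_fl (f : Cube n → ℤ) (i : Fin n) (S : Finset (Fin n)) :
    hat (fun x => f (fl i x)) S = (if i ∈ S then -1 else 1) * hat f S := by
  rw [hat, ← sum_fl i, hat, Finset.mul_sum]
  exact Finset.sum_congr rfl fun x _ => by rw [fl_fl, ch_fl]; ring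

theorem hat_an (f : Cube n → ℤ) (S : Finset (Fin n)) :
    hat (fun x => f (an x)) S = (-1) ^ S.card * hat f S := by
  rw [hat, ← sum_an, hat, Finset.mul_sum]
  exact Finset.sum_congr rfl fun x _ => by rw [an_an, ch_an]; ring

theorem level {f : Cube n → ℤ} (hf : Zo f) {t : ℤ} (h0 : 0 ≤ t) (h1 : t ≤ 1) :
    4 * (2 ^ n * ∑ x, f x - (∑ x, f x) ^ 2) + t * (2 ^ n * Od f) - (2 + 2 * t) * ∑ i, cc f i ^ 2 ≤
      2 ^ n * Bd f := by
  have e0 : 2 ^ n * ∑ x, f x = ∑ S, hat f S * hat f S := by
    rw [planch]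
    exact congrArg _ (Finset.sum_congr rfl fun x _ => by rcases hf x with a | a <;> simp [a])
  have e1 : ∀ g : Cube n → ℤ, 2 ^ n * ∑ x, f x * (1 - g x) =
      ∑ S, (hat f S * hat f S - hat f S * hat g S) := fun g => by
    rw [Finset.sum_sub_distrib, ← e0, planch, ← mul_sub, ← Finset.sum_sub_distrib]
    exact congrArg _ (Finset.sum_congr rfl fun _ _ => by ring)
  have e2 : 2 ^ n * Bd f = ∑ S, 2 * S.card * hat f S ^ 2 := by
    rw [Bd, Finset.mul_sum, Finset.sum_congr rfl fun i _ => e1 fun x => f (fl i x),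
      Finset.sum_comm]
    refine Finset.sum_congr rfl fun S _ => ?_
    rw [Finset.sum_congr rfl fun i _ => show _ = if i ∈ S then 2 * hat f S ^ 2 else 0 by
      rw [hat_fl]; split_ifs <;> ring]
    simp only [Finset.sum_ite_mem, univ_inter, sum_const, nsmul_eq_mul]
    ring
  have e3 : (∑ x, f x) ^ 2 = ∑ S, if S = ∅ then hat f S ^ 2 else 0 := by simp [hat, ch]
  have e4 : ∑ i, cc f i ^ 2 = ∑ S, ∑ i, if S = {i} then hat f S ^ 2 else 0 := by
    rw [Finset.sum_comm]
    simp [hat, ch, cc]
  rw [e2, e3, e4, Od, e1, e0, ← Finset.sum_sub_distrib, Finset.mul_sum, Finset.mul_sum,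
    Finset.mul_sum, ← Finset.sum_add_distrib, ← Finset.sum_sub_distrib]
  refine Finset.sum_le_sum fun S _ => ?_
  rw [hat_an]
  have q := sq_nonneg (hat f S)
  have q' : 0 ≤ ∑ i, if S = {i} then hat f S ^ 2 else 0 :=
    Finset.sum_nonneg fun i _ => by split_ifs <;> positivity
  rcases (by omega : S.card = 0 ∨ S.card = 1 ∨ S.card = 2 ∨ 3 ≤ S.card) with h | h | h | h
  · rw [if_pos (Finset.card_eq_zero.1 h), h]
    nlinarith
  · obtain ⟨j, rfl⟩ := Finset.card_eq_one.1 h
    simp only [singleton_ne_empty, if_false, singleton_inj, sum_ite_eq, mem_univ, if_true,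
      card_singleton]
    push_cast
    nlinarith
  · rw [if_neg (by rintro rfl; simp at h), h]
    push_cast
    nlinarith [mul_nonneg h0 q']
  · have h3 : (3 : ℤ) ≤ S.card := by exact_mod_cast h
    rw [if_neg (by rintro rfl; simp at h)]
    rcases neg_one_pow_eq_or ℤ S.card with e | e <;> rw [e] <;>
      nlinarith [mul_nonneg h0 q', mul_nonneg (sub_nonneg.2 h1) q, mul_nonneg (sub_nonneg.2 h3) q]

theorem sum_sg (i : Fin n) : ∑ x : Cube n, sg (x i) = 0 := by
  have := sum_fl i fun x : Cube n => sg (x i)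
  simp only [fl_self, sg_not, Finset.sum_neg_distrib] at this
  linarith

theorem cc_le {f : Cube n → ℤ} (hf : Zo f) (i : Fin n) :
    cc f i ≤ ∑ x, f x ∧ cc f i ≤ 2 ^ n - ∑ x, f x := by
  constructor
  · exact Finset.sum_le_sum fun x _ => by
      rcases hf x with a | a <;> cases x i <;> simp [a, sg]
  · have h : ∑ x, (f x * sg (x i) + f x - sg (x i)) ≤ ∑ _x : Cube n, (1 : ℤ) :=
      Finset.sum_le_sum fun x _ => by rcases hf x with a | a <;> cases x i <;> simp [a, sg]
    rw [Finset.sum_sub_distrib, Finset.sum_add_distrib, sum_sg, sum_const_cube] at h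
    rw [cc]
    linarith

theorem Bd_add_cc (f : Cube n → ℤ) :
    Bd f + ∑ i, cc f i = ∑ y, (1 - f y) * ∑ i, f (fl i y) * (1 - sg (y i)) := by
  simp only [Finset.mul_sum]
  rw [Finset.sum_comm, Bd, ← Finset.sum_add_distrib]
  refine Finset.sum_congr rfl fun i _ => ?_
  have h1 := sum_fl i fun x => f x * f (fl i x) * sg (x i)
  simp only [fl_fl, fl_self, sg_not] at h1
  have h2 : ∑ x, f x * f (fl i x) * sg (x i) = 0 := by
    rw [Finset.sum_congr rfl fun x _ => show _ = -(f x * f (fl i x) * sg (x i)) by ring,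
      Finset.sum_neg_distrib] at h1
    linarith
  rw [← sum_fl i fun y => (1 - f y) * (f (fl i y) * (1 - sg (y i))), cc, ← sub_zero (_ + _), ← h2,
    ← Finset.sum_add_distrib, ← Finset.sum_sub_distrib]
  exact Finset.sum_congr rfl fun x _ => by rw [fl_fl, fl_self, sg_not]; ring

end Pool.Agent.MP_163ab5_co

end

section

/- A subset of the cube whose components each miss a direction fills at most half of the cube,
by signed adjacency operators. -/

set_option autoImplicit false

namespace Pool.Agent.MP_163ab5_co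

open Finset

variable {n : ℕ}

/-- The signed adjacency operator in the directions of `T`. -/
noncomputable def BB (T : Finset (Fin n)) (v : Cube n → ℝ) (x : Cube n) : ℝ :=
  ∑ i ∈ T, (ch (Iio i) x : ℝ) * v (fl i x)

theorem ch_sq' (S : Finset (Fin n)) (x : Cube n) : (ch S x : ℝ) * ch S x = 1 := by
  exact_mod_cast ch_sq S x

theorem BB_BB (T : Finset (Fin n)) (v : Cube n → ℝ) (x : Cube n) :
    BB T (BB T v) x = T.card * v x := by
  let a : Fin n → Fin n → ℝ := fun i j =>
    (ch (Iio i) x : ℝ) * ((ch (Iio j) (fl i x) : ℝ) * v (fl j (fl i x)))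
  have h1 : BB T (BB T v) x = ∑ i ∈ T, ∑ j ∈ T, a i j := by simp only [BB, Finset.mul_sum, a]
  have h2 : ∀ i j, a i j + a j i = if i = j then 2 * v x else 0 := by
    intro i j
    simp only [a, ch_fl, mem_Iio, fl_comm i j]
    rcases lt_trichotomy i j with h | h | h
    · simp only [h, h.ne, h.not_gt, if_true, if_false]
      push_cast
      ring
    · subst h
      simp only [lt_irrefl, if_true, if_false, one_mul, fl_fl, ← mul_assoc, ch_sq']
      ring
    · simp only [h, h.ne', h.not_gt, if_true, if_false]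
      push_cast
      ring
  have h3 : ∑ i ∈ T, ∑ j ∈ T, a i j + ∑ i ∈ T, ∑ j ∈ T, a j i = ∑ _i ∈ T, 2 * v x := by
    rw [← Finset.sum_add_distrib]
    refine Finset.sum_congr rfl fun i hi => ?_
    rw [← Finset.sum_add_distrib, Finset.sum_congr rfl fun j _ => h2 i j, Finset.sum_ite_eq, if_pos hi]
  rw [Finset.sum_comm (f := fun i j => a j i), Finset.sum_const, nsmul_eq_mul] at h3
  linarith

theorem BB_symm (T : Finset (Fin n)) (v w : Cube n → ℝ) :
    ∑ x, BB T v x * w x = ∑ x, v x * BB T w x := by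
  simp only [BB, Finset.sum_mul, Finset.mul_sum]
  rw [Finset.sum_comm, Finset.sum_comm (f := fun x i => v x * _)]
  refine Finset.sum_congr rfl fun i _ => ?_
  rw [← sum_fl i]
  refine Finset.sum_congr rfl fun x _ => ?_
  rw [fl_fl, ch_fl, if_neg (by simp), one_mul]
  ring

theorem BB_norm (T : Finset (Fin n)) (v : Cube n → ℝ) :
    ∑ x, BB T v x ^ 2 = T.card * ∑ x, v x ^ 2 := by
  simp only [sq, BB_symm, BB_BB, Finset.mul_sum]
  exact Finset.sum_congr rfl fun _ _ => by ring

section Kotlov

variable {R : Cube n → Fin n → Prop}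
  (hR : ∀ x z i, R x z → (∃ w, R (fl i x) w) → R (fl i x) z ∧ i ≠ z)
include hR

theorem eigen_zero {v : Cube n → ℝ} {c : ℝ} (hc : c ^ 2 = n) (hv : ∀ x, (¬ ∃ z, R x z) → v x = 0)
    (he : ∀ x, BB univ v x = c * v x) (x : Cube n) : v x = 0 := by
  classical
  by_contra hx
  obtain ⟨z, hz⟩ : ∃ z, R x z := not_not.1 fun h => hx (hv x h)
  let u : Cube n → ℝ := fun y => if R y z then v y else 0
  have h1 : ∀ y, n * u y ^ 2 ≤ BB (univ.erase z) u y ^ 2 := by
    intro y
    by_cases hy : R y z
    · have : BB (univ.erase z) u y = c * u y := by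
        simp only [u, if_pos hy]
        rw [← he, BB, BB, ← Finset.add_sum_erase _ _ (mem_univ z),
          hv (fl z y) fun h => (hR y z z hy h).2 rfl, mul_zero, zero_add]
        refine Finset.sum_congr rfl fun i _ => ?_
        split_ifs with h
        · rfl
        · rw [hv _ fun h' => h (hR y z i hy h').1]
      rw [this, mul_pow, hc]
    · simp only [u, if_neg hy]
      simpa using sq_nonneg _
  have h2 := Finset.sum_le_sum fun y (_ : y ∈ univ) => h1 y
  rw [BB_norm, ← Finset.mul_sum, Finset.card_erase_of_mem (mem_univ z), card_univ,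
    Fintype.card_fin, Nat.cast_pred z.pos] at h2
  have h3 : u x ^ 2 ≤ ∑ y, u y ^ 2 :=
    Finset.single_le_sum (f := fun y => u y ^ 2) (fun _ _ => sq_nonneg _) (mem_univ x)
  have h4 : 0 < u x ^ 2 := by
    simp only [u, if_pos hz]
    positivity
  linarith

open Classical in
theorem kotlov (hn : 0 < n) : 2 * (univ.filter fun x => ∃ z, R x z).card ≤ 2 ^ n := by
  have hc : √(n : ℝ) ^ 2 = n := Real.sq_sqrt (Nat.cast_nonneg n)
  have c0 : 0 < √(n : ℝ) := Real.sqrt_pos.2 (by exact_mod_cast hn)
  let P : ℝ → (Cube n → ℝ) → Cube n → ℝ := fun e w x => (1 + e * ch univ x) * w x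
  let Θ : ℝ → (Cube n → ℝ) →ₗ[ℝ] ({x : Cube n // ¬ ∃ z, R x z} → ℝ) := fun e =>
    { toFun := fun w x => BB univ (P e w) x.1 + √(n : ℝ) * P e w x.1
      map_add' := fun v w => by
        ext x
        simp only [BB, P, Pi.add_apply, mul_add, Finset.sum_add_distrib]
        ring
      map_smul' := fun a w => by
        ext x
        simp only [BB, P, Pi.smul_apply, smul_eq_mul, RingHom.id_apply, mul_add, Finset.mul_sum]
        congr 1
        · exact Finset.sum_congr rfl fun _ _ => by ring
        · ring }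
  have key : ∀ (e : ℝ) (w : Cube n → ℝ), Θ e w = 0 → ∀ x, e * ch univ x = 1 → w x = 0 := by
    intro e w hw x hx
    have h1 := eigen_zero hR (v := fun x => BB univ (P e w) x + √(n : ℝ) * P e w x) hc
      (fun y hy => congrFun hw ⟨y, hy⟩) (fun y => by
        have h2 := BB_BB univ (P e w) y
        rw [card_univ, Fintype.card_fin] at h2
        have h3 : BB univ (fun x => BB univ (P e w) x + √(n : ℝ) * P e w x) y =
            BB univ (BB univ (P e w)) y + √(n : ℝ) * BB univ (P e w) y := by
          simp only [BB, mul_add, Finset.sum_add_distrib]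
          rw [Finset.mul_sum _ _ √(n : ℝ)]
          exact congrArg _ (Finset.sum_congr rfl fun _ _ => by ring)
        rw [h3, h2]
        nth_rewrite 1 [← hc]
        ring) x
    have h4 : BB univ (P e w) x = 0 := Finset.sum_eq_zero fun i _ => by
      simp only [P, ch_fl, mem_univ, if_true]
      push_cast
      rw [neg_one_mul, mul_neg, hx, add_neg_cancel, zero_mul, mul_zero]
    simp only [h4, zero_add, P, hx] at h1
    simpa [c0.ne'] using h1
  have inj : Function.Injective ((Θ 1).prod (Θ (-1))) := by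
    refine (injective_iff_map_eq_zero _).2 fun w hw => funext fun x => ?_
    rcases mul_self_eq_one_iff.1 (ch_sq' univ x) with h | h
    · exact key 1 w (congrArg Prod.fst hw) x (by rw [h, one_mul])
    · exact key (-1) w (congrArg Prod.snd hw) x (by rw [h]; ring)
  have h1 := LinearMap.finrank_le_finrank_of_injective inj
  rw [Module.finrank_prod, Module.finrank_fintype_fun_eq_card, Module.finrank_fintype_fun_eq_card,
    Fintype.card_subtype, card_cube] at h1
  have h2 := Finset.card_filter_add_card_filter_not (s := (univ : Finset (Cube n)))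
    fun x => ∃ z, R x z
  rw [card_univ, card_cube] at h2
  omega

end Kotlov

end Pool.Agent.MP_163ab5_co

end

section

/- Dense union-closed families in the cube with no element of frequency above one half. -/

set_option autoImplicit false

namespace Pool.Agent.MP_163ab5_co

open Finset
open scoped Classical

variable {n : ℕ}

/-- The indicator function. -/
noncomputable def ind (P : Cube n → Prop) (x : Cube n) : ℤ := if P x then 1 else 0

/-- The point `x` is outside the family and covers a member in direction `z`. -/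
def Rt (P : Cube n → Prop) (x : Cube n) (z : Fin n) : Prop := ¬ P x ∧ x z = true ∧ P (fl z x)

theorem zo_ind (P : Cube n → Prop) : Zo (ind P) := fun x => by
  unfold ind
  split_ifs <;> simp

theorem all_of_sum {P : Cube n → Prop} (h : ∑ x, ind P x = 2 ^ n) (x : Cube n) : P x := by
  have h1 : ∑ x, (1 - ind P x) = 0 := by rw [Finset.sum_sub_distrib, sum_const_cube, h]; ring
  have h2 := (Finset.sum_eq_zero_iff_of_nonneg fun y _ => by
    rcases zo_ind P y with a | a <;> simp [a]).1 h1 x (mem_univ x)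
  by_contra hx
  simp [ind, hx] at h2

theorem fill {P : Cube n → Prop} (h : 2 * ∑ x, ind P x = 2 ^ n) {g : Cube n → ℤ}
    (h0 : ∑ x, g x = 0) (h1 : ∀ x, -1 ≤ g x) (h2 : ∀ x, P x → g x = 1) (x : Cube n) :
    P x ↔ g x = 1 := by
  have h3 : ∑ x, (1 + g x - 2 * ind P x) = 0 := by
    rw [Finset.sum_sub_distrib, Finset.sum_add_distrib, sum_const_cube, ← Finset.mul_sum, h, h0]
    ring
  have h4 := (Finset.sum_eq_zero_iff_of_nonneg fun y _ => by
    unfold ind
    split_ifs with hy
    · simp [h2 y hy]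
    · linarith [h1 y]).1 h3 x (mem_univ x)
  refine ⟨h2 x, fun hx => by_contra fun hP => ?_⟩
  simp [ind, hx, hP] at h4

section UC

variable {P : Cube n → Prop} (hU : ∀ x y, P x → P y → P fun i => x i || y i)
include hU

theorem rt_unique {x : Cube n} {z w : Fin n} (h1 : Rt P x z) (h2 : Rt P x w) : z = w := by
  by_contra h
  refine h1.1 ?_
  convert hU _ _ h1.2.2 h2.2.2 with i
  by_cases a : i = z
  · subst a
    simp [fl_ne h, h1.2.1]
  · by_cases b : i = w
    · subst b
      simp [fl_ne a, h2.2.1]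
    · simp [fl_ne a, fl_ne b]

theorem rt_step (x : Cube n) (z i : Fin n) (h1 : Rt P x z) (h2 : ∃ w, Rt P (fl i x) w) :
    Rt P (fl i x) z ∧ i ≠ z := by
  obtain ⟨w, h2⟩ := h2
  have hi : i ≠ z := fun h => h2.1 (h ▸ h1.2.2)
  refine ⟨?_, hi⟩
  by_cases hw : w = z
  · exact hw ▸ h2
  have hwi : w ≠ i := fun h => h1.1 (by simpa [h, fl_fl] using h2.2.2)
  have h3 := hU _ _ h1.2.2 h2.2.2
  have h4 := h2.2.1
  rw [fl_ne hwi] at h4
  have key : ∀ j, j ≠ i → (fl z x j || fl w (fl i x) j) = x j := by
    intro j hj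
    by_cases a : j = z
    · subst a
      simp [fl_ne (Ne.symm hw), fl_ne hj, h1.2.1]
    · by_cases b : j = w
      · subst b
        simp [fl_ne a, h4]
      · simp [fl_ne a, fl_ne b, fl_ne hj]
  have key' : (fl z x i || fl w (fl i x) i) = true := by simp [fl_ne hi, fl_ne hwi.symm, fl_self]
  exfalso
  cases hx : x i
  · refine h2.1 ?_
    convert h3 with j
    by_cases a : j = i
    · rw [a, key', fl_self, hx]
      rfl
    · rw [key j a, fl_ne a]
  · refine h1.1 ?_
    convert h3 with j
    by_cases a : j = i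
    · rw [a, key', hx]
    · rw [key j a]

theorem up_le : Bd (ind P) + ∑ i, cc (ind P) i ≤
    2 * ((univ.filter fun x => ∃ z, Rt P x z).card : ℤ) := by
  rw [Bd_add_cc, Finset.card_filter, Nat.cast_sum, Finset.mul_sum]
  refine Finset.sum_le_sum fun y _ => ?_
  by_cases hy : P y
  · simp only [ind, if_pos hy, sub_self, zero_mul]
    positivity
  have h0 : ∀ i, ¬ Rt P y i → ind P (fl i y) * (1 - sg (y i)) = 0 := fun i hi => by
    by_cases a : P (fl i y)
    · cases b : y i
      · simp [sg]
      · exact (hi ⟨hy, b, a⟩).elim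
    · simp [ind, a]
  split_ifs with h
  · obtain ⟨z, hz⟩ := h
    rw [Finset.sum_eq_single z (fun i _ hi => h0 i fun h => hi (rt_unique hU h hz)) (by simp)]
    simp [ind, hy, hz.2.1, hz.2.2, sg]
  · rw [Finset.sum_eq_zero fun i _ => h0 i fun h' => h ⟨i, h'⟩]
    simp

omit hU in
theorem up_le' : ((univ.filter fun x => ∃ z, Rt P x z).card : ℤ) ≤ 2 ^ n - ∑ x, ind P x := by
  rw [Finset.card_filter, Nat.cast_sum, ← mul_one (2 ^ n : ℤ), ← sum_const_cube,
    ← Finset.sum_sub_distrib]
  refine Finset.sum_le_sum fun y _ => ?_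
  split_ifs with h
  · obtain ⟨z, hz⟩ := h
    simp [ind, hz.1]
  · rcases zo_ind P y with a | a <;> simp [a]

theorem all_of_sep (ha : ∀ x, P x → P (an x)) {x₀ : Cube n} (h0 : P x₀)
    (hs : ∀ i j, i ≠ j → ∃ x, P x ∧ x i ≠ x j) (y : Cube n) : P y := by
  have top : P fun _ => true := by
    convert hU _ _ h0 (ha _ h0) with i
    simp [an]
  have h1 : ∀ (i : Fin n) (T : Finset (Fin n)), ∃ x, P x ∧ x i = false ∧
      ∀ j ∈ T, j ≠ i → x j = true := by
    intro i T
    induction T using Finset.induction_on with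
    | empty => exact ⟨_, ha _ top, rfl, by simp⟩
    | insert j T _ ih =>
      obtain ⟨x, hx, hi, hT⟩ := ih
      by_cases hj : j = i
      · exact ⟨x, hx, hi, by simpa [hj] using hT⟩
      obtain ⟨u, hu, hu'⟩ : ∃ u, P u ∧ u i = false ∧ u j = true := by
        obtain ⟨u, hu, hu'⟩ := hs i j (Ne.symm hj)
        cases a : u i
        · exact ⟨u, hu, a, by simpa [a] using hu'⟩
        · exact ⟨an u, ha u hu, by simp [an, a], by simpa [an, a] using hu'⟩
      refine ⟨_, hU _ _ hx hu, by simp [hi, hu'.1], fun l hl hli => ?_⟩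
      rcases Finset.mem_insert.1 hl with rfl | hl
      · simp [hu'.2]
      · simp [hT l hl hli]
  have h2 : ∀ T : Finset (Fin n), P fun j => decide (j ∈ T) := by
    intro T
    induction T using Finset.induction_on with
    | empty =>
      simp only [Finset.notMem_empty, decide_false]
      exact ha _ top
    | insert i T _ ih =>
      obtain ⟨x, hx, hi, hT⟩ := h1 i univ
      convert hU _ _ (ha x hx) ih with j
      by_cases a : j = i
      · simp [a, an, hi]
      · simp [a, an, hT j (mem_univ j) a]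
  simpa using h2 (univ.filter fun j => y j = true)

theorem core (hc : ∀ i, 0 ≤ cc (ind P) i) (hd : 3 * 2 ^ n < 8 * ∑ x, ind P x) :
    (∀ x, P x) ∨ (∃ i, ∀ x, P x ↔ x i = false) ∨ ∃ i j, i ≠ j ∧ ∀ x, P x ↔ x i = x j := by
  obtain ⟨k, hk, hk'⟩ := (zo_ind P).nat
  have N0 : (0 : ℤ) < 2 ^ n := by positivity
  have hN : ((2 ^ n : ℕ) : ℤ) = 2 ^ n := by push_cast; rfl
  by_cases hall : (k : ℤ) = 2 ^ n
  · exact Or.inl (all_of_sum (hk.trans hall))
  refine Or.inr ?_
  have hn : 0 < n := Nat.pos_of_ne_zero fun h => by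
    subst h
    omega
  have u1 := up_le hU
  have u2 := up_le' (P := P)
  have u3 : 2 * ((univ.filter fun x => ∃ z, Rt P x z).card : ℤ) ≤ 2 ^ n := by
    exact_mod_cast kotlov (rt_step hU) hn
  have l0 := level (zo_ind P) le_rfl zero_le_one
  have l1 := level (zo_ind P) zero_le_one le_rfl
  have c1 := cc_le (zo_ind P)
  rw [hk] at hd u2 l0 l1 c1
  have s0 : ∀ i, 0 ≤ cc (ind P) i * (2 ^ n - 2 * cc (ind P) i) := fun i =>
    mul_nonneg (hc i) (by linarith [(c1 i).1, (c1 i).2])
  have e : ∀ a : ℤ, ∑ i, cc (ind P) i * (2 ^ n - a * cc (ind P) i) =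
      2 ^ n * ∑ i, cc (ind P) i - a * ∑ i, cc (ind P) i ^ 2 := fun a => by
    rw [Finset.mul_sum, Finset.mul_sum, ← Finset.sum_sub_distrib]
    exact Finset.sum_congr rfl fun _ _ => by ring
  have s1 := Finset.sum_nonneg fun i (_ : i ∈ univ) => s0 i
  have m1 := mul_le_mul_of_nonneg_left (u1.trans u3) N0.le
  have m2 := mul_le_mul_of_nonneg_left (u1.trans (mul_le_mul_of_nonneg_left u2 zero_le_two)) N0.le
  have hk1 : (k : ℤ) < 2 ^ n := by omega
  have hk2 : 2 * (k : ℤ) ≤ 2 ^ n := by
    rw [e] at s1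
    by_contra h
    nlinarith [mul_pos (sub_pos.2 hk1) (sub_pos.2 (not_le.1 h))]
  by_cases hbig : ∃ i, 2 ^ n < 4 * cc (ind P) i
  · obtain ⟨i, hi⟩ := hbig
    have s2 : cc (ind P) i * (2 ^ n - 2 * cc (ind P) i) ≤ (2 ^ n - 2 * k) ^ 2 := by
      refine (Finset.single_le_sum (fun j _ => s0 j) (mem_univ i)).trans ?_
      rw [e]
      nlinarith
    have h1 := (c1 i).1
    have h2 : 2 * (k : ℤ) = 2 ^ n := by
      by_contra h
      have h3 : 0 < 2 ^ n - 2 * (k : ℤ) := by omega
      nlinarith [mul_le_mul_of_nonneg_left h1 (hc i), mul_pos h3 (sub_pos.2 hi),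
        mul_pos h3 (sub_pos.2 hd)]
    have h3 : cc (ind P) i = k := by nlinarith
    have h4 : ∑ x, ind P x * (1 - sg (x i)) = 0 := by
      simp only [mul_sub, Finset.sum_sub_distrib, mul_one]
      rw [hk, ← h3, cc, sub_self]
    refine Or.inl ⟨i, fun x => (fill (hk ▸ h2) (sum_sg i) (fun y => by cases y i <;> simp [sg])
      (fun y hy => ?_) x).trans (by cases x i <;> simp [sg])⟩
    have := (Finset.sum_eq_zero_iff_of_nonneg fun y _ => by
      rcases zo_ind P y with a | a <;> cases y i <;> simp [a, sg]).1 h4 y (mem_univ y)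
    simp only [ind, if_pos hy] at this
    linarith
  refine Or.inr ?_
  have s2 := Finset.sum_nonneg fun i (_ : i ∈ univ) =>
    mul_nonneg (hc i) (sub_nonneg.2 (not_lt.1 fun h => hbig ⟨i, h⟩))
  rw [e] at s2
  have s3 : 2 ^ n * Od (ind P) ≤ (2 ^ n - 2 * k) ^ 2 := by nlinarith
  have h2 : 2 * (k : ℤ) = 2 ^ n := by
    by_contra h
    have h3 : 0 < 2 ^ n - 2 * (k : ℤ) := by omega
    have h4 : 4 * Od (ind P) < 2 ^ n - 2 * k := by
      refine lt_of_mul_lt_mul_left ?_ N0.le
      nlinarith [mul_pos h3 (sub_pos.2 hd)]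
    have h5 : 4 ≤ n := by
      by_contra h6
      interval_cases n <;> omega
    obtain ⟨m, rfl⟩ := Nat.exists_eq_add_of_le' h5
    have h6 : (2 : ℤ) ^ (m + 4) = 16 * 2 ^ m := by ring
    have h7 := Bd_gt (zo_ind P) (by omega) (by omega) (by omega) (by omega)
    have h8 := Finset.sum_nonneg fun i (_ : i ∈ univ) => hc i
    omega
  have t0 : ∀ x ∈ univ, 0 ≤ ind P x * (1 - ind P (an x)) := fun x _ => by
    rcases zo_ind P x with a | a <;> rcases zo_ind P (an x) with b | b <;> simp [a, b]
  have h3 : Od (ind P) = 0 := le_antisymm (by nlinarith) (Finset.sum_nonneg t0)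
  have ha : ∀ x, P x → P (an x) := fun x hx => by_contra fun h => by
    simpa [ind, hx, h] using (Finset.sum_eq_zero_iff_of_nonneg t0).1 h3 x (mem_univ x)
  obtain ⟨x₀, h0⟩ : ∃ x, P x := by_contra fun h => by
    rw [Finset.sum_eq_zero (f := ind P) fun x _ => if_neg fun hx => h ⟨x, hx⟩] at hk
    omega
  by_contra h
  refine hall (hk.symm.trans ?_)
  rw [← mul_one (2 ^ n : ℤ), ← sum_const_cube]
  refine Finset.sum_congr rfl fun y _ => if_pos (all_of_sep hU ha h0 (fun i j hij => ?_) y)
  by_contra h'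
  refine h ⟨i, j, hij, fun x => (fill (g := fun x => sg (x i) * sg (x j)) (hk ▸ h2) ?_
    (fun y => by cases y i <;> cases y j <;> simp [sg]) (fun y hy => ?_) x).trans
      (by cases x i <;> cases x j <;> simp [sg])⟩
  · have := sum_fl i fun x : Cube n => sg (x i) * sg (x j)
    simp only [fl_self, fl_ne hij.symm, sg_not, neg_mul, Finset.sum_neg_distrib] at this
    linarith
  · rw [not_not.1 fun a => h' ⟨y, hy, a⟩]
    exact sg_sq _

end UC

end Pool.Agent.MP_163ab5_co

end
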