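import Mathlib
import Pool.Agent.Mg.F163ab5.G05221c

section

/- Edge isoperimetric facts in the cube, direction by direction. -/

set_option autoImplicit false

namespace Pool.Agent.MP_caa27d_co

open Finset Pool.Agent.MP_163ab5_co

variable {n : ℕ}

theorem ff_eight (k : ℕ) : ff (8 * k) = 8 * ff k + 12 * k := by
  rw [show 8 * k = 2 * (2 * (2 * k)) by ring, ff_even, ff_even, ff_even]
  ring

theorem ff_sixteen (k : ℕ) : ff (16 * k) = 16 * ff k + 32 * k := by
  rw [show 16 * k = 2 * (8 * k) by ring, ff_even, ff_eight]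
  ring

theorem ff_low (m b : ℕ) (h1 : 2 ^ m ≤ b) (h2 : b ≤ 3 * 2 ^ m) :
    2 * ff b + 2 * 2 ^ m ≤ (m + 2) * b := by
  rcases le_total b (2 * 2 ^ m) with h | h
  · obtain ⟨c, rfl⟩ := Nat.exists_eq_add_of_le h1
    have s0 := ff_shift m c (by omega)
    have c0 := ff_chord m c (by omega)
    have p0 := ff_pow m
    linarith
  · obtain ⟨c, rfl⟩ := Nat.exists_eq_add_of_le h
    have s0 := ff_shift (m + 1) c (by rw [pow_succ']; omega)
    have c0 := ff_chord m c (by omega)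
    have p0 := ff_pow (m + 1)
    rw [pow_succ'] at s0 p0
    rw [s0]
    linarith

/-- The four chords of the edge isoperimetric function that are used. -/
theorem ff_facts (n k : ℕ) :
    (8 * k ≤ 2 ^ n → 2 * ff k + 3 * k ≤ n * k) ∧ (16 * k ≤ 2 ^ n → 2 * ff k + 4 * k ≤ n * k) ∧
    (2 ^ n ≤ 16 * k → 16 * k ≤ 3 * 2 ^ n → 16 * ff k + 2 ^ n + 16 * k ≤ 8 * (n * k)) ∧
    (2 ^ n ≤ 8 * k → 8 * k ≤ 3 * 2 ^ n → 8 * ff k + 2 ^ n + 4 * k ≤ 4 * (n * k)) := by
  refine ⟨fun h => ?_, fun h => ?_, fun h h' => ?_, fun h h' => ?_⟩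
  · have := ff_chord n _ h
    rw [ff_eight] at this
    linarith
  · have := ff_chord n _ h
    rw [ff_sixteen] at this
    linarith
  · have := ff_low n _ h h'
    rw [ff_sixteen] at this
    linarith
  · have := ff_low n _ h h'
    rw [ff_eight] at this
    linarith

/-- Ordered pairs from the support to its complement along edges in direction `i`. -/
def Bi (f : Cube n → ℤ) (i : Fin n) : ℤ := ∑ x, f x * (1 - f (fl i x))

theorem Bd_eq (f : Cube n → ℤ) : Bd f = ∑ i, Bi f i := rfl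

theorem cc_le_Bi {f : Cube n → ℤ} (hf : Zo f) (i : Fin n) :
    cc f i ≤ Bi f i ∧ -cc f i ≤ Bi f i := by
  have h1 := sum_fl i fun x => f x * sg (x i)
  have h2 := sum_fl i fun x => f x * (1 - f (fl i x))
  simp only [fl_self, sg_not, fl_fl] at h1 h2
  have h3 : ∀ t : ℤ, t = 1 ∨ t = -1 →
      ∑ x, t * (f x * sg (x i) + f (fl i x) * -sg (x i)) ≤
        ∑ x, (f x * (1 - f (fl i x)) + f (fl i x) * (1 - f x)) := fun t ht =>
    Finset.sum_le_sum fun x _ => by
      rcases ht with rfl | rfl <;> rcases hf x with a | a <;> rcases hf (fl i x) with b | b <;>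
        cases x i <;> simp [a, b, sg]
  have h4 := h3 1 (Or.inl rfl)
  have h5 := h3 (-1) (Or.inr rfl)
  rw [← Finset.mul_sum, Finset.sum_add_distrib, Finset.sum_add_distrib, h1, h2] at h4 h5
  unfold cc Bi
  constructor <;> linarith

theorem Bi_compl (f : Cube n → ℤ) (i : Fin n) : Bi (fun x => 1 - f x) i = Bi f i := by
  unfold Bi
  rw [← sum_fl i fun x => f x * (1 - f (fl i x))]
  exact Finset.sum_congr rfl fun x _ => by rw [fl_fl]; ring

theorem Bd_compl (f : Cube n → ℤ) : Bd (fun x => 1 - f x) = Bd f :=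
  Finset.sum_congr rfl fun i _ => Bi_compl f i

theorem zo_compl {f : Cube n → ℤ} (hf : Zo f) : Zo fun x => 1 - f x := fun x => by
  rcases hf x with a | a <;> simp [a]

theorem sum_compl' (f : Cube n → ℤ) : ∑ x, (1 - f x) = 2 ^ n - ∑ x, f x := by
  rw [Finset.sum_sub_distrib, sum_const_cube, mul_one]

theorem Od_le {f : Cube n → ℤ} (hf : Zo f) : 0 ≤ Od f ∧ Od f ≤ ∑ x, f x :=
  ⟨Finset.sum_nonneg fun x _ => by
    rcases hf x with a | a <;> rcases hf (an x) with b | b <;> simp [a, b],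
  Finset.sum_le_sum fun x _ => by
    rcases hf x with a | a <;> rcases hf (an x) with b | b <;> simp [a, b]⟩

/-- The chords of the edge isoperimetric inequality. -/
theorem iso {f : Cube n → ℤ} (hf : Zo f) :
    0 ≤ ∑ x, f x ∧ (8 * ∑ x, f x ≤ 2 ^ n → 3 * ∑ x, f x ≤ Bd f) ∧
    (16 * ∑ x, f x ≤ 2 ^ n → 4 * ∑ x, f x ≤ Bd f) ∧
    (2 ^ n ≤ 16 * ∑ x, f x → 16 * ∑ x, f x ≤ 3 * 2 ^ n → 2 ^ n + 16 * ∑ x, f x ≤ 8 * Bd f) ∧
    (2 ^ n ≤ 8 * ∑ x, f x → 8 * ∑ x, f x ≤ 3 * 2 ^ n → 2 ^ n + 4 * ∑ x, f x ≤ 4 * Bd f) := by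
  obtain ⟨k, hk, -⟩ := hf.nat
  have h3 := EE_le _ f hf k hk
  have h4 := Bd_add_Od (f := f)
  have h5 := (Od_le hf).2
  have h6 := ff_facts n k
  have h0 : ((2 ^ n : ℕ) : ℤ) = 2 ^ n := by push_cast; rfl
  have h7 : ((n : ℤ) + 1) * k = (n * k : ℕ) + k := by push_cast; ring
  rw [hk] at h4 h5 ⊢
  rw [gg, ← h0] at h3
  rw [← h0]
  omega

/-- The restriction to a facet. -/
def rs (f : Cube n → ℤ) (i : Fin n) (b : Bool) (x : Cube n) : ℤ := if x i = b then f x else 0

theorem zo_rs {f : Cube n → ℤ} (hf : Zo f) (i : Fin n) (b : Bool) : Zo (rs f i b) := fun x => by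
  unfold rs
  split_ifs
  · exact hf x
  · exact Or.inl rfl

theorem sum_rs (f : Cube n → ℤ) (i : Fin n) :
    ∑ x, rs f i false x + ∑ x, rs f i true x = ∑ x, f x ∧
      ∑ x, rs f i false x - ∑ x, rs f i true x = cc f i := by
  rw [← Finset.sum_add_distrib, ← Finset.sum_sub_distrib]
  constructor <;> exact Finset.sum_congr rfl fun x _ => by cases h : x i <;> simp [rs, h, sg]

theorem Bd_rs (f : Cube n → ℤ) (i : Fin n) :
    Bd (rs f i false) + Bd (rs f i true) = ∑ j ∈ univ.erase i, Bi f j + ∑ x, f x := by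
  rw [Bd_eq, Bd_eq, ← Finset.sum_add_distrib, ← Finset.sum_erase_add _ _ (mem_univ i)]
  congr 1
  · refine Finset.sum_congr rfl fun j hj => ?_
    have hj' := (Finset.ne_of_mem_erase hj).symm
    rw [Bi, Bi, Bi, ← Finset.sum_add_distrib]
    exact Finset.sum_congr rfl fun x _ => by cases h : x i <;> simp [rs, h, fl_ne hj']
  · rw [Bi, Bi, ← Finset.sum_add_distrib]
    exact Finset.sum_congr rfl fun x _ => by cases h : x i <;> simp [rs, h, fl_self]

/-- The symmetric difference with the lower facet in direction `i`. -/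
def xr (f : Cube n → ℤ) (i : Fin n) (x : Cube n) : ℤ := if x i = true then f x else 1 - f x

theorem zo_xr {f : Cube n → ℤ} (hf : Zo f) (i : Fin n) : Zo (xr f i) := fun x => by
  unfold xr
  split_ifs
  · exact hf x
  · exact zo_compl hf x

theorem Bi_xr (f : Cube n → ℤ) {i j : Fin n} (h : i ≠ j) : Bi (xr f i) j = Bi f j := by
  have h1 := sum_fl j (rs f i false)
  rw [← sub_eq_zero, ← Finset.sum_sub_distrib] at h1
  rw [← sub_eq_zero, Bi, Bi, ← Finset.sum_sub_distrib, ← h1]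
  exact Finset.sum_congr rfl fun x _ => by
    cases h' : x i <;> simp [rs, xr, h', fl_ne h] <;> ring

theorem sum_xr (f : Cube n → ℤ) (i : Fin n) :
    2 * ∑ x, xr f i x = 2 ^ n - 2 * cc f i ∧
      2 * cc (xr f i) i = 2 ^ n - 2 * ∑ x, f x := by
  have h0 := sum_sg i
  have h1 : ∑ x, (2 * xr f i x + 2 * (f x * sg (x i)) - sg (x i)) = ∑ _x : Cube n, (1 : ℤ) :=
    Finset.sum_congr rfl fun x _ => by cases h : x i <;> simp [xr, h, sg] <;> ring
  have h2 : ∑ x, (2 * (xr f i x * sg (x i)) + 2 * f x - sg (x i)) = ∑ _x : Cube n, (1 : ℤ) :=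
    Finset.sum_congr rfl fun x _ => by cases h : x i <;> simp [xr, h, sg] <;> ring
  rw [Finset.sum_sub_distrib, Finset.sum_add_distrib, ← Finset.mul_sum, ← Finset.mul_sum,
    sum_const_cube, h0] at h1 h2
  unfold cc
  constructor <;> linarith

/-- The weight on the first level is at most half of the density. -/
theorem level_one {f : Cube n → ℤ} (hf : Zo f) : 2 * ∑ i, cc f i ^ 2 ≤ 2 ^ n * ∑ x, f x := by
  have e0 : 2 ^ n * ∑ x, f x = ∑ S, hat f S * hat f S := by
    rw [planch]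
    exact congrArg _ (Finset.sum_congr rfl fun x _ => by rcases hf x with a | a <;> simp [a])
  have e1 : 2 ^ n * Od f = ∑ S, (hat f S * hat f S - hat f S * hat (fun x => f (an x)) S) := by
    rw [Finset.sum_sub_distrib, ← e0, planch, ← mul_sub, ← Finset.sum_sub_distrib]
    exact congrArg _ (Finset.sum_congr rfl fun _ _ => by ring)
  have e4 : ∑ i, cc f i ^ 2 = ∑ S, ∑ i, if S = {i} then hat f S ^ 2 else 0 := by
    rw [Finset.sum_comm]
    simp [hat, ch, cc]
  refine le_trans ?_ (mul_le_mul_of_nonneg_left (Od_le hf).2 (by positivity))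
  rw [e1, e4, Finset.mul_sum]
  refine Finset.sum_le_sum fun S _ => ?_
  rw [hat_an]
  by_cases h : S.card = 1
  · obtain ⟨j, rfl⟩ := Finset.card_eq_one.1 h
    simp only [singleton_inj, sum_ite_eq, mem_univ, if_true, card_singleton]
    nlinarith
  · rw [Finset.sum_eq_zero fun i _ => if_neg (by rintro rfl; simp at h)]
    rcases neg_one_pow_eq_or ℤ S.card with e | e <;> rw [e] <;> nlinarith [sq_nonneg (hat f S)]

/-- The boundary of an antipodal family whose density is between `5 / 16` and `1 / 2`. -/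
theorem even_low {g : Cube n → ℤ} (hg : Zo g) (he : ∀ x, g (an x) = g x)
    (h1 : 5 * 2 ^ n ≤ 16 * ∑ x, g x) (h2 : 2 * ∑ x, g x ≤ 2 ^ n) :
    min (24 * 2 ^ n - 16 * ∑ x, g x) (10 * 2 ^ n + 16 * ∑ x, g x) ≤ 16 * Bd g := by
  obtain ⟨j, hj, -⟩ := hg.nat
  have h3 := EE_le _ g hg j hj
  have h4 := Bd_add_Od (f := g)
  have h5 : Od g = 0 := Finset.sum_eq_zero fun x _ => by
    rw [he]
    rcases hg x with e | e <;> simp [e]
  rw [hj] at h1 h2 h4 ⊢
  have h0 : ((2 ^ n : ℕ) : ℤ) = 2 ^ n := by push_cast; rfl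
  rw [gg, max_eq_left (by linarith)] at h3
  rw [← h0] at h1 h2 ⊢
  have h6 := ff_mid n (16 * j) (by omega) (by omega)
  rw [ff_sixteen, show (n + 5) * (16 * j) = 16 * (n * j) + 80 * j by ring] at h6
  have h7 : ((n : ℤ) + 1) * j = (n * j : ℕ) + j := by push_cast; ring
  omega

theorem even_mid {g : Cube n → ℤ} (hg : Zo g) (he : ∀ x, g (an x) = g x)
    (h1 : 5 * 2 ^ n ≤ 16 * ∑ x, g x) (h2 : 16 * ∑ x, g x ≤ 11 * 2 ^ n) :
    (2 * ∑ x, g x ≤ 2 ^ n ∧
      min (24 * 2 ^ n - 16 * ∑ x, g x) (10 * 2 ^ n + 16 * ∑ x, g x) ≤ 16 * Bd g) ∨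
    (2 ^ n ≤ 2 * ∑ x, g x ∧
      min (8 * 2 ^ n + 16 * ∑ x, g x) (26 * 2 ^ n - 16 * ∑ x, g x) ≤ 16 * Bd g) := by
  rcases le_total (2 * ∑ x, g x) (2 ^ n) with h | h
  · exact Or.inl ⟨h, even_low hg he h1 h⟩
  · have h3 := even_low (zo_compl hg) (fun x => by rw [he]) (by rw [sum_compl']; linarith)
      (by rw [sum_compl']; linarith)
    rw [sum_compl', Bd_compl] at h3
    refine Or.inr ⟨h, le_of_eq_of_le ?_ h3⟩
    congr 1 <;> ring

/-- The isoperimetric step for almost antipodal families. -/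
theorem Bd_ge {f : Cube n → ℤ} (hf : Zo f) {a : ℤ} (h0 : 0 ≤ a) (ha : 8 * a ≤ 2 ^ n)
    (h1 : 3 * 2 ^ n + 8 * a ≤ 8 * ∑ x, f x) (h2 : 8 * ∑ x, f x ≤ 5 * 2 ^ n)
    (h3 : 16 * Od f ≤ 2 ^ n + 16 * a) (h4 : 16 * (∑ x, f x + Od f) ≤ 9 * 2 ^ n + 16 * a) :
    2 ^ n - a ≤ Bd f := by
  have o0 := (Od_le hf).1
  have s1 : ∑ x, f x * f (an x) = ∑ x, f x - Od f := by
    rw [Od, ← Finset.sum_sub_distrib]
    exact Finset.sum_congr rfl fun _ _ => by ring
  have s2 : ∑ x, (f x + f (an x) - f x * f (an x)) = ∑ x, f x + Od f := by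
    rw [Finset.sum_sub_distrib, Finset.sum_add_distrib, sum_an f, s1]
    ring
  have b1 := even_mid (g := fun x => f x * f (an x)) (fun x => by
      rcases hf x with a | a <;> rcases hf (an x) with b | b <;> simp [a, b])
    (fun x => by rw [an_an, mul_comm]) (by rw [s1]; linarith) (by rw [s1]; linarith)
  have b2 := even_mid (g := fun x => f x + f (an x) - f x * f (an x)) (fun x => by
      rcases hf x with a | a <;> rcases hf (an x) with b | b <;> simp [a, b])
    (fun x => by rw [an_an]; ring) (by rw [s2]; linarith) (by rw [s2]; linarith)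
  have b3 : Bd (fun x => f x * f (an x)) + Bd (fun x => f x + f (an x) - f x * f (an x)) ≤
      Bd f + Bd f := by
    simp only [Bd, ← Finset.sum_add_distrib]
    refine Finset.sum_le_sum fun i _ => ?_
    rw [Finset.sum_add_distrib (f := fun x => f x * (1 - f (fl i x)))]
    nth_rewrite 2 [← sum_an fun x => f x * (1 - f (fl i x))]
    rw [← Finset.sum_add_distrib]
    refine Finset.sum_le_sum fun x _ => ?_
    rw [← an_fl]
    rcases hf x with a | a <;> rcases hf (an x) with b | b <;> rcases hf (fl i x) with c | c <;>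
      rcases hf (an (fl i x)) with d | d <;> simp [a, b, c, d]
  rw [s1] at b1
  rw [s2] at b2
  generalize (2 : ℤ) ^ n = M at *
  omega

end Pool.Agent.MP_caa27d_co

end

section

/- Two nested dense union-closed families in the cube. -/

set_option autoImplicit false

namespace Pool.Agent.MP_caa27d_co

open Finset Pool.Agent.MP_163ab5_co
open scoped Classical

variable {n : ℕ}

/-- The case where the larger family misses at least `1 / 8` of the cube. -/
theorem far {g h : Cube n → ℤ} (hg : Zo g) (hh : Zo h) (hgh : Zo fun x => g x - h x) {a b : ℤ}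
    (ha : ∑ x, g x = 2 ^ n - a) (hb : ∑ x, h x = 2 ^ n - b) (hd : 8 * (a + b) ≤ 5 * 2 ^ n)
    (h8 : 2 ^ n ≤ 8 * a) (ug : Bd g + ∑ i, cc g i ≤ 2 * a) (uh : Bd h + ∑ i, cc h i ≤ 2 * b)
    (hn : 0 < n) (hc : ∀ i, 0 < cc g i + cc h i) : False := by
  have N0 : (0 : ℤ) < 2 ^ n := by positivity
  have l1 := level hg le_rfl zero_le_one
  have l2 := level hh le_rfl zero_le_one
  have l3 := level_one hgh
  have l4 := (iso hgh).1
  rw [Finset.sum_sub_distrib, ha, hb] at l3 l4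
  rw [ha] at l1
  rw [hb] at l2
  have e : ∑ i, (cc g i + cc h i) * (2 ^ n - (cc g i + cc h i)) =
      2 ^ n * ∑ i, cc g i + 2 ^ n * ∑ i, cc h i - 2 * ∑ i, cc g i ^ 2 - 2 * ∑ i, cc h i ^ 2 +
        ∑ i, cc (fun x => g x - h x) i ^ 2 := by
    simp only [Finset.mul_sum, ← Finset.sum_add_distrib, ← Finset.sum_sub_distrib]
    refine Finset.sum_congr rfl fun i _ => ?_
    have : cc (fun x => g x - h x) i = cc g i - cc h i := by
      simp only [cc, sub_mul, Finset.sum_sub_distrib]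
    rw [this]
    ring
  have p : 0 < ∑ i, (cc g i + cc h i) * (2 ^ n - (cc g i + cc h i)) :=
    Finset.sum_pos (fun i _ => mul_pos (hc i) (by
      linarith [(cc_le hg i).2, (cc_le hh i).2])) ⟨⟨0, hn⟩, mem_univ _⟩
  have m1 := mul_le_mul_of_nonneg_left ug N0.le
  have m2 := mul_le_mul_of_nonneg_left uh N0.le
  rw [e] at p
  nlinarith [mul_nonneg (show 0 ≤ a by linarith) (sub_nonneg.2 hd),
    mul_nonneg (show 0 ≤ b by linarith) (show 0 ≤ 3 * 2 ^ n + 8 * a - 8 * b by linarith)]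

/-- The directions other than `i`, for a family of small co-density. -/
theorem side {g : Cube n → ℤ} (hg : Zo g) {a : ℤ} (ha : ∑ x, g x = 2 ^ n - a)
    (h8 : 8 * a ≤ 2 ^ n) (ug : Bd g + ∑ i, cc g i ≤ 2 * a) (i : Fin n) :
    ∑ j ∈ univ.erase i, cc g j ≤ 0 := by
  have h1 := Bd_rs (fun x => 1 - g x) i
  have h2 := (sum_rs (fun x => 1 - g x) i).1
  have h3 := iso (zo_rs (zo_compl hg) i false)
  have h4 := iso (zo_rs (zo_compl hg) i true)
  have h5 := (cc_le_Bi hg i).2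
  simp only [Bi_compl] at h1
  rw [sum_compl', ha] at h1 h2
  rw [Bd_eq, ← Finset.sum_erase_add _ _ (mem_univ i), ← Finset.sum_erase_add _ _ (mem_univ i)] at ug
  linarith [h3.2.1 (by linarith [h4.1]), h4.2.1 (by linarith [h3.1])]

/-- The directions other than `i`, for a family close to the lower facet in direction `i`. -/
theorem near {h : Cube n → ℤ} (hh : Zo h) (hd : 3 * 2 ^ n ≤ 8 * ∑ x, h x)
    (uh : Bd h + ∑ i, cc h i ≤ 2 * (2 ^ n - ∑ x, h x)) (uk : Bd h + ∑ i, cc h i ≤ 2 ^ n)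
    {i : Fin n} (hi : 2 ^ n < 4 * cc h i) : ∑ j ∈ univ.erase i, cc h j ≤ 0 := by
  have h1 := Bd_rs (xr h i) i
  have h2 := sum_rs (xr h i) i
  have h3 := iso (zo_rs (zo_xr hh i) i false)
  have h4 := iso (zo_rs (zo_xr hh i) i true)
  have h5 := (cc_le_Bi hh i).1
  have h6 := sum_xr h i
  rw [Finset.sum_congr rfl fun j hj => Bi_xr h (Finset.ne_of_mem_erase hj).symm] at h1
  rw [Bd_eq, ← Finset.sum_erase_add _ _ (mem_univ i), ← Finset.sum_erase_add _ _ (mem_univ i)]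
    at uh uk
  generalize (2 : ℤ) ^ n = N at *
  omega

/-- The case of no large first level coefficient. -/
theorem flat {h : Cube n → ℤ} (hh : Zo h) {a : ℤ} (h0 : 0 ≤ a) (h8 : 8 * a ≤ 2 ^ n)
    (hd : 3 * 2 ^ n + 8 * a ≤ 8 * ∑ x, h x)
    (uh : Bd h + ∑ i, cc h i ≤ 2 * (2 ^ n - ∑ x, h x)) (uk : Bd h + ∑ i, cc h i ≤ 2 ^ n)
    (hi : ∀ i, 4 * cc h i ≤ 2 ^ n) {u : Fin n → ℤ} (u0 : ∀ i, 0 ≤ u i) (u1 : ∑ i, u i ≤ 2 * a)
    (u2 : ∀ i, -u i ≤ 2 * cc h i) : ∑ i, cc h i ≤ a := by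
  by_contra hs
  have N0 : (0 : ℤ) < 2 ^ n := by positivity
  have l1 := level hh zero_le_one le_rfl
  have o0 := (Od_le hh).1
  have s1 : ∑ i, -(u i * (2 ^ n + 4 * a)) ≤ ∑ i, (2 * (2 ^ n * cc h i) - 8 * cc h i ^ 2) := by
    refine Finset.sum_le_sum fun i _ => ?_
    have h1 : u i ≤ 2 * a := (Finset.single_le_sum (fun j _ => u0 j) (mem_univ i)).trans u1
    rcases le_total 0 (cc h i) with h2 | h2
    · nlinarith [mul_nonneg h2 (sub_nonneg.2 (hi i)), mul_nonneg (u0 i) h0, mul_nonneg (u0 i) N0.le]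
    · nlinarith [mul_nonneg (neg_nonneg.2 h2) (show 0 ≤ a + cc h i by linarith [u2 i]),
        mul_nonneg (show 0 ≤ u i + 2 * cc h i by linarith [u2 i])
          (show 0 ≤ 2 ^ n + 4 * a by linarith)]
  rw [Finset.sum_neg_distrib, ← Finset.sum_mul, Finset.sum_sub_distrib, ← Finset.mul_sum,
    ← Finset.mul_sum, ← Finset.mul_sum] at s1
  have s2 := mul_le_mul_of_nonneg_right u1 (show 0 ≤ 2 ^ n + 4 * a by linarith)
  have s3 := mul_le_mul_of_nonneg_left h8 h0
  have key : 8 * ∑ x, h x ≤ 5 * 2 ^ n → 16 * Od h ≤ 2 ^ n + 16 * a →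
      16 * (∑ x, h x + Od h) ≤ 9 * 2 ^ n + 16 * a → False := fun h2 h3 h4 => by
    linarith [Bd_ge hh h0 h8 hd h2 h3 h4]
  rcases le_or_gt (2 * ∑ x, h x) (2 ^ n) with h1 | h1
  · have m := mul_le_mul_of_nonneg_left uk N0.le
    have h3 : 16 * Od h ≤ 2 ^ n + 16 * a := by
      refine le_of_mul_le_mul_left ?_ N0
      nlinarith [mul_nonneg (show 0 ≤ 2 ^ n - 8 * a - 4 * (2 ^ n - 2 * ∑ x, h x) by linarith)
        (show 0 ≤ 2 ^ n - 8 * a + 4 * (2 ^ n - 2 * ∑ x, h x) by linarith)]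
    exact key (by linarith) h3 (by linarith)
  have m := mul_le_mul_of_nonneg_left uh N0.le
  have h2 := iso (zo_compl hh)
  rw [sum_compl', Bd_compl] at h2
  rcases le_or_gt (8 * (2 ^ n - ∑ x, h x)) (2 ^ n) with h3 | h3
  · linarith [h2.2.1 h3, h2.1]
  have h4 : 8 * ∑ x, h x ≤ 5 * 2 ^ n := by
    by_contra h4
    nlinarith [mul_pos (sub_pos.2 h3) (sub_pos.2 (not_le.1 h4)), mul_nonneg N0.le o0,
      mul_le_mul_of_nonneg_left h8 N0.le]
  have h5 : 4 * Od h ≤ 6 * a - 3 * (2 * ∑ x, h x - 2 ^ n) := by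
    refine le_of_mul_le_mul_left ?_ N0
    nlinarith [mul_nonneg (sub_nonneg.2 h4) (sub_pos.2 h1).le]
  exact key h4 (by linarith) (by linarith)

theorem pair {G H : Cube n → Prop} (hG : ∀ x y, G x → G y → G fun i => x i || y i)
    (hH : ∀ x y, H x → H y → H fun i => x i || y i) (hs : ∀ x, H x → G x) (hn : 2 ≤ n)
    (hd : 11 * 2 ^ n ≤ 8 * (∑ x, ind G x + ∑ x, ind H x)) :
    ∃ i, cc (ind G) i + cc (ind H) i ≤ 0 := by
  by_contra hc
  replace hc : ∀ i, 0 < cc (ind G) i + cc (ind H) i := fun i => not_le.1 fun h => hc ⟨i, h⟩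
  have ug := (up_le hG).trans (mul_le_mul_of_nonneg_left (up_le' (P := G)) zero_le_two)
  have uh := (up_le hH).trans (mul_le_mul_of_nonneg_left (up_le' (P := H)) zero_le_two)
  have uk : Bd (ind H) + ∑ i, cc (ind H) i ≤ 2 ^ n :=
    (up_le hH).trans (by exact_mod_cast kotlov (rt_step hH) (by omega))
  have hi := iso (zo_compl (zo_ind G))
  rw [sum_compl', Bd_compl] at hi
  rcases le_total (2 ^ n) (8 * (2 ^ n - ∑ x, ind G x)) with h8 | h8
  · refine far (zo_ind G) (zo_ind H) (fun x => ?_) (sub_sub_cancel _ _).symm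
      (sub_sub_cancel _ _).symm (by linarith) h8 ug uh (by omega) hc
    by_cases a : H x
    · simp [ind, a, hs x a]
    · simpa [ind, a] using em' (G x)
  by_cases hbig : ∃ i, 2 ^ n < 4 * cc (ind H) i
  · obtain ⟨i, hbig⟩ := hbig
    have h1 := side (zo_ind G) (sub_sub_cancel _ _).symm h8 ug i
    have h2 := near (zo_ind H) (by linarith [hi.1]) uh uk hbig
    have h3 := Finset.sum_pos (s := univ.erase i) (fun j _ => hc j)
      (Finset.card_pos.1 (by simp; omega))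
    rw [Finset.sum_add_distrib] at h3
    linarith
  have h1 := flat (zo_ind H) hi.1 h8 (by linarith) uh uk (fun i => not_lt.1 fun h => hbig ⟨i, h⟩)
    (u := fun i => Bi (ind G) i + cc (ind G) i) (fun i => by linarith [(cc_le_Bi (zo_ind G) i).2])
    (by rwa [Finset.sum_add_distrib]) (fun i => by linarith [(cc_le_Bi (zo_ind G) i).1, hc i])
  have h3 := Finset.sum_pos (s := univ) (fun j _ => hc j) ⟨⟨0, by omega⟩, mem_univ _⟩
  rw [Finset.sum_add_distrib] at h3
  linarith [hi.2.1 h8]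

end Pool.Agent.MP_caa27d_co

end
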